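import Pool.Agent.Run7.h400.GK.StmA
import Pool.Agent.Run7.h400.GK.StmK

/-!
# Project GK, piece DER: the derivation `d/dT` of the Carlitz cyclotomic field
-/

set_option autoImplicit false

namespace Run7.h99.GK

open Run7.h400.GK Polynomial Finset TensorProduct nonZeroDivisors

/-- `d/dT` extends along formally etale maps -/
theorem exists_dd (Fq F : Type) [Field Fq] [Field F] [Algebra Fq[X] F]
    [Algebra.FormallyEtale Fq[X] F] : ∃ D : F →+ F, IsDd (Fq := Fq) D := by
  let _ : Algebra Fq F := ((algebraMap Fq[X] F).comp (algebraMap Fq Fq[X])).toAlgebra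
  have : IsScalarTower Fq Fq[X] F := IsScalarTower.of_algebraMap_eq fun _ => rfl
  let d0 : Derivation Fq Fq[X] F := mkDerivation Fq (1 : F)
  let e := KaehlerDifferential.tensorKaehlerEquivOfFormallyEtale Fq Fq[X] F
  let l : F ⊗[Fq[X]] (Ω[Fq[X]⁄Fq]) →ₗ[F] F := (d0.liftKaehlerDifferential).liftBaseChange F
  let D : Derivation Fq F F := (l ∘ₗ e.symm.toLinearMap).compDer (KaehlerDifferential.D Fq F)
  refine ⟨D.toLinearMap.toAddMonoidHom, fun x y => ?_, fun c => ?_⟩
  · simp
  · have h1 : e.symm (KaehlerDifferential.D Fq F (algebraMap Fq[X] F c)) =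
        1 ⊗ₜ KaehlerDifferential.D Fq Fq[X] c :=
      KaehlerDifferential.tensorKaehlerEquivOfFormallyEtale_symm_D_algebraMap Fq Fq[X] F c
    change l (e.symm (KaehlerDifferential.D Fq F (algebraMap Fq[X] F c))) = _
    rw [h1]
    simp [l, d0, mkDerivation_apply, Algebra.smul_def]

/-- uniqueness of `d/dT` -/
theorem dd_unique (Fq F : Type) [Field Fq] [Field F] [Algebra Fq[X] F]
    [Algebra.FormallyUnramified Fq[X] F] (D₁ D₂ : F →+ F) (h₁ : IsDd (Fq := Fq) D₁)
    (h₂ : IsDd (Fq := Fq) D₂) (x : F) : D₁ x = D₂ x := by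
  let l : F →ₗ[Fq[X]] F :=
    { toFun := fun x => D₁ x - D₂ x
      map_add' := fun x y => by simp only [map_add]; ring
      map_smul' := fun c x => by
        simp only [Algebra.smul_def, h₁.1, h₂.1, h₁.2, h₂.2, RingHom.id_apply]
        ring }
  let δ : Derivation Fq[X] F F := Derivation.mk' l (fun a b => by
    change D₁ (a * b) - D₂ (a * b) = a * (D₁ b - D₂ b) + b * (D₁ a - D₂ a)
    rw [h₁.1, h₂.1]
    ring)
  have h3 : δ x = 0 := by
    have h4 : δ.liftKaehlerDifferential (KaehlerDifferential.D Fq[X] F x) = δ x := by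
      simp
    rw [← h4, Subsingleton.elim (KaehlerDifferential.D Fq[X] F x) 0, map_zero]
  have h5 : D₁ x - D₂ x = 0 := h3
  exact sub_eq_zero.mp h5

/-- powers -/
theorem dd_pow {Fq F : Type} [Field Fq] [Field F] [Algebra Fq[X] F] {D : F →+ F}
    (h : IsDd (Fq := Fq) D) (x : F) (n : ℕ) : D (x ^ (n + 1)) = ((n + 1 : ℕ) : F) * x ^ n * D x := by
  induction n with
  | zero => simp
  | succ n ih =>
    rw [pow_succ, h.1, ih]
    push_cast
    ring

/-- `d/dT` commutes with automorphisms -/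
theorem dd_comm (Fq F : Type) [Field Fq] [Field F] [Algebra Fq[X] F]
    [Algebra (RatFunc Fq) F] [IsScalarTower Fq[X] (RatFunc Fq) F]
    [Algebra.FormallyUnramified Fq[X] F] (D : F →+ F) (h : IsDd (Fq := Fq) D)
    (σ : F ≃ₐ[RatFunc Fq] F) (x : F) : D (σ x) = σ (D x) := by
  let D' : F →+ F := (σ.symm : F →+* F).toAddMonoidHom.comp (D.comp (σ : F →+* F).toAddMonoidHom)
  have hD' : ∀ y, D' y = σ.symm (D (σ y)) := fun y => rfl
  have hσ : ∀ c : Fq[X], σ (algebraMap Fq[X] F c) = algebraMap Fq[X] F c := by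
    intro c
    rw [IsScalarTower.algebraMap_apply Fq[X] (RatFunc Fq) F, AlgEquiv.commutes]
  have hσ' : ∀ c : Fq[X], σ.symm (algebraMap Fq[X] F c) = algebraMap Fq[X] F c := by
    intro c
    rw [IsScalarTower.algebraMap_apply Fq[X] (RatFunc Fq) F, AlgEquiv.commutes]
  have h' : IsDd (Fq := Fq) D' := by
    refine ⟨fun x y => ?_, fun c => ?_⟩
    · rw [hD', hD', hD', map_mul, h.1, map_add, map_mul, map_mul, AlgEquiv.symm_apply_apply,
        AlgEquiv.symm_apply_apply]
    · rw [hD', hσ, h.2, hσ']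
  have h2 := dd_unique Fq F D' D h' h x
  rw [hD'] at h2
  rw [← h2, AlgEquiv.apply_symm_apply]

/-- the derivative of an irreducible polynomial over a finite field is not divisible by it -/
theorem not_dvd_derivative {Fq : Type} [Field Fq] [Finite Fq] {v : Fq[X]} (hv : Irreducible v) :
    ¬ v ∣ derivative v := by
  intro hdvd
  have hsep : v.Separable := PerfectField.separable_of_irreducible hv
  have h1 : IsUnit v := by
    have := hsep.isUnit_of_dvd' (dvd_refl v) hdvd
    exact this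
  exact hv.not_isUnit h1

/-- **DER** -/
theorem t_DER : S_CAR → S_CAL → S_FRB → S_TOR → S_GAL → S_OFA → S_DER := by
  intro hCAR hCAL hFRB hTOR hGAL hOFA Fq E F _ _ _ _ _ _ _ _ _ w θ q d lm hD hC hQ
  classical
  obtain ⟨p, hcp⟩ := CharP.exists Fq
  obtain ⟨n, hp, hpn⟩ := FiniteField.card Fq p
  have hpq : p ∣ q := by
    rw [hD.hq, hpn]
    exact dvd_pow_self p n.pos.ne'
  obtain ⟨hfd, hgal, -, -⟩ := hGAL Fq E F w θ q d lm hD hC
  obtain ⟨hint, hadj, ⟨ε, hε0, hεi, hεi', hw⟩, -, -, h𝔪⟩ := hOFA Fq E F w θ p q d lm hD hC hp hpq hQ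
  obtain ⟨cc, hcc0, hccd, hccw, hcact⟩ := hCAR Fq w q d hD.hq hD.irr hD.monic hD.deg
  have hFE : Algebra.FormallyEtale Fq[X] F := by
    have h1 : Algebra.FormallyEtale Fq[X] (RatFunc Fq) :=
      Algebra.FormallyEtale.of_isLocalization (nonZeroDivisors Fq[X])
    have h2 : Algebra.FormallyEtale (RatFunc Fq) F := Algebra.FormallyEtale.of_isSeparable _ _
    exact Algebra.FormallyEtale.comp Fq[X] (RatFunc Fq) F
  have hinj : Function.Injective (algebraMap Fq[X] F) := by
    rw [IsScalarTower.algebraMap_eq Fq[X] (RatFunc Fq) F]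
    exact (algebraMap (RatFunc Fq) F).injective.comp (IsFractionRing.injective Fq[X] (RatFunc Fq))
  have hcF : CharP F p := by
    have : CharP Fq[X] p := inferInstance
    exact charP_of_injective_ringHom hinj p
  obtain ⟨D, hDd⟩ := exists_dd Fq F
  have hD1 : ∀ x y, D (x * y) = x * D y + y * D x := hDd.1
  have hD2 : ∀ c : Fq[X], D (algebraMap Fq[X] F c) = algebraMap Fq[X] F (derivative c) := hDd.2
  have hq0 : 0 < q := by rw [hD.hq]; exact Fintype.card_pos
  have hlm0 : lm ≠ 0 := hC.ne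
  have hqF : (q : F) = 0 := (CharP.cast_eq_zero_iff F p q).mpr hpq
  have hpowD : ∀ i, 1 ≤ i → D (lm ^ (q ^ i)) = 0 := by
    intro i hi
    have h1 : 0 < q ^ i := pow_pos hq0 i
    obtain ⟨m, hm⟩ : ∃ m, q ^ i = m + 1 := ⟨q ^ i - 1, by omega⟩
    rw [hm, dd_pow hDd, ← hm]
    have : ((q ^ i : ℕ) : F) = 0 := by
      push_cast
      rw [hqF, zero_pow (by omega)]
    rw [this]
    ring
  -- the derivative of `lm`
  have hA : ∀ c : Fq[X], IsIntegral Fq[X] (algebraMap Fq[X] F c) := fun c => isIntegral_algebraMap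
  have hsum : algebraMap Fq[X] F w * D lm =
      - ∑ i ∈ range (d + 1), algebraMap Fq[X] F (derivative (cc i)) * lm ^ (q ^ i) := by
    have h1 := hcact F lm
    rw [hC.tor] at h1
    have h2 : D 0 = D (∑ i ∈ range (d + 1), algebraMap Fq[X] F (cc i) * lm ^ (q ^ i)) := by
      rw [← h1]
    rw [map_zero, map_sum] at h2
    have h3 : ∀ i ∈ range (d + 1), D (algebraMap Fq[X] F (cc i) * lm ^ (q ^ i)) =
        algebraMap Fq[X] F (derivative (cc i)) * lm ^ (q ^ i) +
          (if i = 0 then algebraMap Fq[X] F w * D lm else 0) := by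
      intro i _
      rw [hD1, hD2]
      rcases Nat.eq_zero_or_pos i with rfl | hi
      · rw [if_pos rfl, hcc0, pow_zero, pow_one]
        ring
      · rw [if_neg hi.ne', hpowD i hi]
        ring
    rw [Finset.sum_congr rfl h3, Finset.sum_add_distrib, Finset.sum_ite_eq', if_pos (by simp)] at h2
    linear_combination -h2
  set R : F := ∑ i ∈ range (d + 1), algebraMap Fq[X] F (derivative (cc i)) * lm ^ (q ^ i - 1) with hR
  have hRint : IsIntegral Fq[X] R := by
    refine IsIntegral.sum _ fun i _ => ?_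
    exact (hA _).mul (hint.pow _)
  have hlR : ∑ i ∈ range (d + 1), algebraMap Fq[X] F (derivative (cc i)) * lm ^ (q ^ i) = lm * R := by
    rw [hR, Finset.mul_sum]
    refine Finset.sum_congr rfl fun i _ => ?_
    have h1 : 0 < q ^ i := pow_pos hq0 i
    obtain ⟨m, hm⟩ : ∃ m, q ^ i = m + 1 := ⟨q ^ i - 1, by omega⟩
    rw [hm, Nat.add_sub_cancel, pow_succ]
    ring
  have hεD : ε * (lm ^ (q ^ d - 2) * D lm) = - R := by
    rw [hlR, hw] at hsum
    obtain ⟨m, hm⟩ : ∃ m, q ^ d = m + 2 := ⟨q ^ d - 2, by omega⟩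
    rw [hm] at hsum ⊢
    have h1 : m + 2 - 1 = m + 1 := by omega
    have h2 : m + 2 - 2 = m := by omega
    rw [h1] at hsum
    rw [h2]
    have h3 : lm * (ε * (lm ^ m * D lm)) = lm * (- R) := by
      rw [pow_succ] at hsum
      linear_combination hsum
    exact mul_left_cancel₀ hlm0 h3
  have hDlm : lm ^ (q ^ d - 2) * D lm = - (ε⁻¹ * R) := by
    have h1 : ε⁻¹ * (ε * (lm ^ (q ^ d - 2) * D lm)) = ε⁻¹ * (- R) := by rw [hεD]
    rw [← mul_assoc, inv_mul_cancel₀ hε0, one_mul] at h1
    rw [h1]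
    ring
  have hDint : IsIntegral Fq[X] (lm ^ (q ^ d - 2) * D lm) := by
    rw [hDlm]
    exact (hεi'.mul hRint).neg
  refine ⟨D, hDd, fun σ x => dd_comm Fq F D hDd σ x, ?_, ?_⟩
  · intro x hx
    have hx' := hadj x hx
    have h2 : IsIntegral Fq[X] x ∧ IsIntegral Fq[X] (lm ^ (q ^ d - 2) * D x) := by
      clear hx
      induction hx' using Algebra.adjoin_induction with
      | mem y hy =>
        rw [Set.mem_singleton_iff] at hy
        rw [hy]
        exact ⟨hint, hDint⟩
      | algebraMap c =>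
        refine ⟨hA c, ?_⟩
        rw [hD2]
        exact (hint.pow _).mul (hA _)
      | add x y _ _ hx hy =>
        refine ⟨hx.1.add hy.1, ?_⟩
        rw [map_add, mul_add]
        exact hx.2.add hy.2
      | mul x y _ _ hx hy =>
        refine ⟨hx.1.mul hy.1, ?_⟩
        have : lm ^ (q ^ d - 2) * D (x * y) = x * (lm ^ (q ^ d - 2) * D y) +
            y * (lm ^ (q ^ d - 2) * D x) := by
          rw [hD1]
          ring
        rw [this]
        exact (hx.1.mul hy.2).add (hy.1.mul hx.2)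
    exact h2.2
  · intro 𝔪 h𝔪m
    have hprime : 𝔪.IsPrime := h𝔪m.isPrime
    by_cases hlm : (⟨lm, hint⟩ : OF Fq F) ∈ 𝔪
    · refine ⟨⟨lm, hint⟩, hlm, ⟨lm ^ (q ^ d - 2) * D lm, hDint⟩, rfl, ?_⟩
      intro hmem
      -- then `R ∈ 𝔪`
      have hRm : (⟨R, hRint⟩ : OF Fq F) ∈ 𝔪 := by
        have h1 : (⟨R, hRint⟩ : OF Fq F) = - ((⟨ε, hεi⟩ : OF Fq F) *
            (⟨lm ^ (q ^ d - 2) * D lm, hDint⟩ : OF Fq F)) := by
          apply Subtype.ext
          change R = - (ε * (lm ^ (q ^ d - 2) * D lm))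
          rw [hεD, neg_neg]
        rw [h1]
        exact 𝔪.neg_mem (𝔪.mul_mem_left _ hmem)
      have hR0 : (⟨R, hRint⟩ : OF Fq F) = algebraMap Fq[X] (OF Fq F) (derivative w) +
          ∑ i ∈ range d, algebraMap Fq[X] (OF Fq F) (derivative (cc (i + 1))) *
            (⟨lm, hint⟩ : OF Fq F) ^ (q ^ (i + 1) - 1) := by
        apply Subtype.ext
        change R = _
        rw [hR, Finset.sum_range_succ', hcc0]
        push_cast
        simp only [pow_zero, Nat.sub_self, mul_one]
        rw [add_comm]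
      have hq2 : 2 ≤ q := by
        rw [hD.hq]
        exact Fintype.one_lt_card
      have hsm : ∑ i ∈ range d, algebraMap Fq[X] (OF Fq F) (derivative (cc (i + 1))) *
            (⟨lm, hint⟩ : OF Fq F) ^ (q ^ (i + 1) - 1) ∈ 𝔪 := by
        refine 𝔪.sum_mem fun i _ => 𝔪.mul_mem_left _ ?_
        have h1 : 2 ≤ q ^ (i + 1) := by
          calc 2 ≤ q := hq2
            _ = q ^ 1 := (pow_one q).symm
            _ ≤ q ^ (i + 1) := Nat.pow_le_pow_right hq0 (by omega)
        exact 𝔪.pow_mem_of_mem hlm _ (by omega)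
      have hw' : algebraMap Fq[X] (OF Fq F) (derivative w) ∈ 𝔪 := by
        rw [hR0] at hRm
        exact (𝔪.add_mem_iff_left hsm).mp hRm
      have hdvd : w ∣ derivative w := by
        refine h𝔪 𝔪 h𝔪m ?_ _ hw'
        intro x hx
        have : x = (⟨lm, hint⟩ : OF Fq F) := Subtype.ext hx
        rw [this]
        exact hlm
      exact not_dvd_derivative hD.irr hdvd
    · -- the prime below
      have hmax : (𝔪.comap (algebraMap Fq[X] (OF Fq F))).IsMaximal :=
        Ideal.isMaximal_comap_of_isIntegral_of_isMaximal 𝔪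
      set 𝔭 := 𝔪.comap (algebraMap Fq[X] (OF Fq F)) with h𝔭
      obtain ⟨v, hv⟩ := (IsPrincipalIdealRing.principal 𝔭).principal
      have hv' : 𝔭 = Ideal.span {v} := hv
      have hv0 : v ≠ 0 := by
        rintro rfl
        have h1 : 𝔭 = ⊥ := by rw [hv']; simp
        rw [h1] at hmax
        exact Polynomial.not_isField Fq (Ring.isField_iff_maximal_bot.mpr hmax)
      have hirr : Irreducible v := by
        have h1 : Prime v := by
          rw [← Ideal.span_singleton_prime hv0, ← hv']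
          exact hmax.isPrime
        exact h1.irreducible
      have hvm : algebraMap Fq[X] (OF Fq F) v ∈ 𝔪 := by
        have h1 : v ∈ 𝔭 := by rw [hv']; exact Ideal.mem_span_singleton_self v
        exact h1
      refine ⟨algebraMap Fq[X] (OF Fq F) v, hvm,
        (⟨lm, hint⟩ : OF Fq F) ^ (q ^ d - 2) * algebraMap Fq[X] (OF Fq F) (derivative v), ?_, ?_⟩
      · push_cast
        rw [hD2]
      · intro hmem
        rcases hprime.mem_or_mem hmem with h1 | h1
        · exact hlm (hprime.mem_of_pow_mem _ h1)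
        · have h2 : derivative v ∈ 𝔭 := h1
          rw [hv', Ideal.mem_span_singleton] at h2
          exact not_dvd_derivative hirr h2

end Run7.h99.GK
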