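import Pool.Agent.Run7.h688.GK.CLA

/-!
# Project GK, piece UNB: the eigenspace of the units has rank at most one
-/

set_option autoImplicit false

namespace Run7.h99.GK

open Run7.h400.GK Run7.h688.GK Polynomial Finset TensorProduct

/-- the kernel argument: an element of `W ⊗ U` all of whose coordinates vanish is zero -/
theorem eq_zero_of_coords {p : ℕ} [hp : Fact p.Prime] {E G U : Type} [Field E] [Fintype E]
    [CharP E p] [Fintype G] [AddCommGroup U] (ρ : G → (U →+ U)) (N : ℕ) (v : U →+ ℤ)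
    (hN : ¬ p ∣ N) (hU : ∀ x, (∀ σ, v (ρ σ x) = 0) → N • x = 0)
    (V : (WittVector p E) ⊗[ℤ] U →ₗ[WittVector p E] WittVector p E)
    (hV : ∀ w x, V (w ⊗ₜ[ℤ] x) = v x • w)
    (X : (WittVector p E) ⊗[ℤ] U)
    (hX : ∀ σ, V (LinearMap.lTensor (WittVector p E) (ρ σ).toIntLinearMap X) = 0) : X = 0 := by
  classical
  have hcz : CharZero (WittVector p E) := charZero_witt
  let f : U →ₗ[ℤ] (G → ℤ) := LinearMap.pi fun σ => v.toIntLinearMap ∘ₗ (ρ σ).toIntLinearMap
  have hf : ∀ x σ, f x σ = v (ρ σ x) := fun x σ => rfl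
  let e := TensorProduct.piScalarRight ℤ ℤ (WittVector p E) G
  have he : ∀ (Y : (WittVector p E) ⊗[ℤ] U) σ, e (LinearMap.lTensor (WittVector p E) f Y) σ =
      V (LinearMap.lTensor (WittVector p E) (ρ σ).toIntLinearMap Y) := by
    intro Y σ
    induction Y using TensorProduct.induction_on with
    | zero => simp
    | tmul w x =>
      rw [LinearMap.lTensor_tmul, LinearMap.lTensor_tmul, hV]
      change TensorProduct.piScalarRightHom ℤ ℤ (WittVector p E) G (w ⊗ₜ[ℤ] f x) σ = _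
      rw [TensorProduct.piScalarRightHom_tmul]
      rfl
    | add x y hx hy =>
      rw [map_add, map_add, Pi.add_apply, hx, hy, map_add, map_add]
  have h1 : LinearMap.lTensor (WittVector p E) f X = 0 := by
    apply e.injective
    rw [map_zero]
    funext σ
    rw [he, hX]
    rfl
  have hex : Function.Exact (LinearMap.ker f).subtype f := by
    intro y
    simp
  have hex' := Module.Flat.lTensor_exact (WittVector p E) hex
  obtain ⟨Y, hY⟩ := (hex' X).mp h1
  have hNY : ∀ Y : (WittVector p E) ⊗[ℤ] (LinearMap.ker f), N • Y = 0 := by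
    intro Y
    induction Y using TensorProduct.induction_on with
    | zero => simp
    | tmul w x =>
      have h3 : N • x = 0 := by
        apply Subtype.ext
        have h4 : N • (x : U) = 0 := by
          apply hU
          intro σ
          rw [← hf, LinearMap.mem_ker.mp x.2]
          rfl
        simpa using h4
      rw [← TensorProduct.tmul_smul, h3, TensorProduct.tmul_zero]
    | add x y hx hy => rw [smul_add, hx, hy, add_zero]
  have hNX : N • X = 0 := by
    rw [← hY, ← map_nsmul, hNY, map_zero]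
  have hunit : IsUnit ((N : ℕ) : WittVector p E) := by
    apply WittVector.isUnit_of_coeff_zero_ne_zero
    have h5 : WittVector.constantCoeff ((N : ℕ) : WittVector p E) = (N : E) := map_natCast _ _
    change WittVector.constantCoeff ((N : ℕ) : WittVector p E) ≠ 0
    rw [h5]
    intro h6
    exact hN ((CharP.cast_eq_zero_iff E p N).mp h6)
  obtain ⟨a, ha⟩ := hunit
  have h7 : (a : WittVector p E) • X = 0 := by
    rw [ha, Nat.cast_smul_eq_nsmul, hNX]
  have h8 : ((a⁻¹ : (WittVector p E)ˣ) : WittVector p E) • ((a : WittVector p E) • X) = 0 := by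
    rw [h7, smul_zero]
  rwa [smul_smul, Units.inv_mul, one_smul] at h8

/-- **UNB** -/
theorem t_UNB : S_UNB := by
  intro p hp E G U _ _ _ _ _ _ u ρ k N v μ hG hu hρ1 hρm hN hU hadd hequi hind
  classical
  have hcz : CharZero (WittVector p E) := charZero_witt
  -- notation
  obtain ⟨te, hte⟩ : ∃ te : G → WittVector p E, te = fun σ => WittVector.teichmuller p (u σ) ^ k :=
    ⟨_, rfl⟩
  obtain ⟨ti, hti⟩ : ∃ ti : G → WittVector p E, ti = fun σ => WittVector.teichmuller p (u σ⁻¹) ^ k :=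
    ⟨_, rfl⟩
  have hte_mul : ∀ σ τ, te (σ * τ) = te σ * te τ := by
    intro σ τ
    rw [hte]
    simp only [map_mul, mul_pow]
  have hte_inv : ∀ σ, ti σ * te σ = 1 := by
    intro σ
    rw [hti, hte]
    simp only
    rw [← mul_pow, ← map_mul, ← map_mul, inv_mul_cancel, map_one, map_one, one_pow]
  have hti_mul : ∀ σ τ, ti (σ * τ) = ti σ * ti τ := by
    intro σ τ
    rw [hti]
    simp only [mul_inv_rev, map_mul, mul_pow]
    ring
  -- the action
  obtain ⟨A, hA⟩ : ∃ A : G → ((WittVector p E) ⊗[ℤ] U →ₗ[WittVector p E] (WittVector p E) ⊗[ℤ] U),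
      ∀ σ w x, A σ (w ⊗ₜ[ℤ] x) = w ⊗ₜ[ℤ] (ρ σ x) :=
    ⟨fun σ => LinearMap.baseChange (WittVector p E) (ρ σ).toIntLinearMap, fun σ w x => rfl⟩
  have hAl : ∀ σ Y, LinearMap.lTensor (WittVector p E) (ρ σ).toIntLinearMap Y = A σ Y := by
    intro σ Y
    induction Y using TensorProduct.induction_on with
    | zero => simp
    | tmul w x => rw [LinearMap.lTensor_tmul, hA]; rfl
    | add x y hx hy => rw [map_add, map_add, hx, hy]
  have hAm : ∀ σ τ Y, A (σ * τ) Y = A σ (A τ Y) := by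
    intro σ τ Y
    induction Y using TensorProduct.induction_on with
    | zero => simp
    | tmul w x => rw [hA, hA, hA, hρm]
    | add x y hx hy => rw [map_add, map_add, map_add, hx, hy]
  obtain ⟨V, hV⟩ : ∃ V : (WittVector p E) ⊗[ℤ] U →ₗ[WittVector p E] WittVector p E,
      ∀ w x, V (w ⊗ₜ[ℤ] x) = v x • w :=
    ⟨(TensorProduct.AlgebraTensorModule.rid ℤ (WittVector p E) (WittVector p E)).toLinearMap ∘ₗ
        LinearMap.baseChange (WittVector p E) v.toIntLinearMap, fun w x => by simp⟩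
  -- the elements
  obtain ⟨X', hX'⟩ : ∃ X' : Fin 2 → (WittVector p E) ⊗[ℤ] U, ∀ i, X' i =
      ∑ z : Eˣ, (WittVector.teichmuller p (z : E)) ⊗ₜ[ℤ] (μ i ((z⁻¹ : Eˣ) : E)) :=
    ⟨fun i => _, fun i => rfl⟩
  obtain ⟨X, hX⟩ : ∃ X : Fin 2 → (WittVector p E) ⊗[ℤ] U, ∀ i, X i =
      ∑ σ : G, ti σ • A σ (X' i) := ⟨fun i => _, fun i => rfl⟩
  have hXeig : ∀ i τ, A τ (X i) = te τ • X i := by
    intro i τ
    rw [hX, map_sum, Finset.smul_sum]
    apply Fintype.sum_equiv (Equiv.mulLeft τ)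
    intro σ
    rw [Equiv.coe_mulLeft, map_smul, ← hAm, smul_smul, hti_mul, ← mul_assoc, mul_comm (te τ),
      hte_inv, one_mul]
  -- reduction
  have hred : ∀ i σ, ∃ t, A σ (X' i) = te σ • X' i + (p : ℤ) • t := by
    intro i σ
    choose t ht using fun γ => hequi i σ γ
    refine ⟨∑ z : Eˣ, (WittVector.teichmuller p (z : E)) ⊗ₜ[ℤ] (t ((z⁻¹ : Eˣ) : E)), ?_⟩
    obtain ⟨w, hw⟩ : ∃ w, w = u σ ^ k := ⟨_, rfl⟩
    have hw0 : w ≠ 0 := by rw [hw]; exact pow_ne_zero _ (hu σ)
    obtain ⟨W, hW⟩ : ∃ W : Eˣ, (W : E) = w := ⟨Units.mk0 w hw0, rfl⟩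
    have htew : te σ = WittVector.teichmuller p w := by
      rw [hte, hw, map_pow]
    rw [hX', map_sum, Finset.smul_sum, Finset.smul_sum]
    have h1 : ∀ z : Eˣ, A σ ((WittVector.teichmuller p (z : E)) ⊗ₜ[ℤ] (μ i ((z⁻¹ : Eˣ) : E))) =
        (WittVector.teichmuller p (z : E)) ⊗ₜ[ℤ] (μ i (w * ((z⁻¹ : Eˣ) : E))) +
          (p : ℤ) • ((WittVector.teichmuller p (z : E)) ⊗ₜ[ℤ] (t ((z⁻¹ : Eˣ) : E))) := by
      intro z
      rw [hA, ht, ← hw, TensorProduct.tmul_add]
      congr 1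
      rw [← TensorProduct.tmul_smul, natCast_zsmul]
    rw [Finset.sum_congr rfl fun z _ => h1 z, Finset.sum_add_distrib]
    congr 1
    apply Fintype.sum_equiv (Equiv.mulLeft W⁻¹)
    intro z
    rw [Equiv.coe_mulLeft, TensorProduct.smul_tmul', smul_eq_mul, htew, ← map_mul]
    congr 2
    · rw [Units.val_mul, ← mul_assoc, ← hW, Units.mul_inv, one_mul]
    · rw [mul_inv, inv_inv, Units.val_mul, hW]
  have hred' : ∀ i, ∃ t, X i = (Fintype.card G : ℤ) • X' i + (p : ℤ) • t := by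
    intro i
    choose t ht using fun σ => hred i σ
    refine ⟨∑ σ : G, ti σ • t σ, ?_⟩
    rw [hX, Finset.smul_sum]
    have h1 : ∀ σ : G, ti σ • A σ (X' i) = X' i + (p : ℤ) • (ti σ • t σ) := by
      intro σ
      rw [ht, smul_add, smul_smul, hte_inv, one_smul, smul_comm]
    rw [Finset.sum_congr rfl fun σ _ => h1 σ, Finset.sum_add_distrib]
    congr 1
    simp
  -- the relation
  obtain ⟨c, hc0, hcV⟩ : ∃ c : Fin 2 → WittVector p E, (c 0 = -1 ∨ c 1 = -1) ∧
      c 0 * V (X 0) + c 1 * V (X 1) = 0 := by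
    have hval : ∀ a b : WittVector p E, a ∣ b ∨ b ∣ a := fun a b => ValuationRing.dvd_total a b
    rcases hval (V (X 0)) (V (X 1)) with ⟨c, hc⟩ | ⟨c, hc⟩
    · refine ⟨![c, -1], Or.inr rfl, ?_⟩
      simp only [Matrix.cons_val_zero, Matrix.cons_val_one]
      rw [hc]
      ring
    · refine ⟨![-1, c], Or.inl rfl, ?_⟩
      simp only [Matrix.cons_val_zero, Matrix.cons_val_one]
      rw [hc]
      ring
  have hXX : c 0 • X 0 + c 1 • X 1 = 0 := by
    apply eq_zero_of_coords ρ N v hN hU V hV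
    intro σ
    rw [hAl, map_add, map_smul, map_smul, hXeig, hXeig, map_add, map_smul, map_smul, map_smul,
      map_smul]
    simp only [smul_eq_mul]
    linear_combination te σ * hcV
  -- the functionals
  obtain ⟨e₀, he₀⟩ : ∃ e₀ : E, e₀ = WittVector.constantCoeff (c 0) := ⟨_, rfl⟩
  obtain ⟨e₁, he₁⟩ : ∃ e₁ : E, e₁ = WittVector.constantCoeff (c 1) := ⟨_, rfl⟩
  have hee : e₀ ≠ 0 ∨ e₁ ≠ 0 := by
    rcases hc0 with h | h
    · left
      rw [he₀, h, map_neg, map_one]
      exact neg_ne_zero.mpr one_ne_zero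
    · right
      rw [he₁, h, map_neg, map_one]
      exact neg_ne_zero.mpr one_ne_zero
  obtain ⟨γ₀, hγ₀⟩ := hind e₀ e₁ hee
  -- a functional on `U / p U`
  let S : AddSubgroup U := (nsmulAddMonoidHom (α := U) p).range
  have hS : ∀ x, x ∈ S ↔ ∃ t, x = p • t := by
    intro x
    constructor
    · rintro ⟨t, rfl⟩
      exact ⟨t, rfl⟩
    · rintro ⟨t, rfl⟩
      exact ⟨t, rfl⟩
  have hn : (QuotientAddGroup.mk' S) (μ 0 (e₀ * γ₀) + μ 1 (e₁ * γ₀)) ≠ 0 := by
    intro h
    have h2 : (μ 0 (e₀ * γ₀) + μ 1 (e₁ * γ₀)) ∈ S := (QuotientAddGroup.eq_zero_iff _).mp h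
    exact hγ₀ ((hS _).mp h2)
  have hpS : ∀ n : U ⧸ S, p • n = 0 := by
    intro n
    obtain ⟨x, rfl⟩ := QuotientAddGroup.mk'_surjective S n
    rw [← map_nsmul]
    exact (QuotientAddGroup.eq_zero_iff _).mpr ((hS _).mpr ⟨x, rfl⟩)
  obtain ⟨l', hl'⟩ := exists_functional hpS _ hn
  obtain ⟨l, hl⟩ : ∃ l : U →+ ZMod p, l = l'.comp (QuotientAddGroup.mk' S) := ⟨_, rfl⟩
  have hlne : l (μ 0 (e₀ * γ₀) + μ 1 (e₁ * γ₀)) ≠ 0 := by
    rw [hl]
    exact hl'
  have hlp : ∀ t, l (p • t) = 0 := by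
    intro t
    rw [map_nsmul, nsmul_eq_mul, CharP.cast_eq_zero, zero_mul]
  have hlμ : ∀ i γ γ', l (μ i (γ + γ')) = l (μ i γ) + l (μ i γ') := by
    intro i γ γ'
    obtain ⟨t, ht⟩ := hadd i γ γ'
    rw [ht, map_add, map_add, hlp, add_zero]
  obtain ⟨ν, hν⟩ : ∃ ν : Fin 2 → (E →+ ZMod p), ∀ i γ, ν i γ = l (μ i γ) :=
    ⟨fun i => AddMonoidHom.mk' (fun γ => l (μ i γ)) (hlμ i), fun i γ => rfl⟩
  obtain ⟨Φ, hΦ⟩ : ∃ Φ : (WittVector p E) ⊗[ℤ] U →+ E,
      ∀ w n, Φ (w ⊗ₜ[ℤ] n) = WittVector.constantCoeff w * ZMod.castHom (dvd_refl p) E (l n) := by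
    refine ⟨TensorProduct.liftAddHom (((AddMonoidHom.mul (R := E)).comp
      (WittVector.constantCoeff : WittVector p E →+* E).toAddMonoidHom).compl₂
        ((ZMod.castHom (dvd_refl p) E).toAddMonoidHom.comp l)) ?_, ?_⟩
    · intro r w n
      change WittVector.constantCoeff (r • w) * ZMod.castHom (dvd_refl p) E (l n) =
        WittVector.constantCoeff w * ZMod.castHom (dvd_refl p) E (l (r • n))
      rw [map_zsmul, map_zsmul, map_zsmul, smul_mul_assoc, mul_smul_comm]
    · intro w n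
      rfl
  have hΦs : ∀ (a : WittVector p E) Y, Φ (a • Y) = WittVector.constantCoeff a * Φ Y := by
    intro a Y
    induction Y using TensorProduct.induction_on with
    | zero => simp
    | tmul w x => rw [TensorProduct.smul_tmul', hΦ, hΦ, smul_eq_mul, map_mul, mul_assoc]
    | add x y hx hy => rw [smul_add, map_add, map_add, hx, hy, mul_add]
  have hΦp : ∀ Y, Φ ((p : ℤ) • Y) = 0 := by
    intro Y
    rw [map_zsmul, zsmul_eq_mul, Int.cast_natCast, CharP.cast_eq_zero, zero_mul]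
  have hΦX : ∀ i, Φ (X i) = (Fintype.card G : E) * Φ (X' i) := by
    intro i
    obtain ⟨t, ht⟩ := hred' i
    rw [ht, map_add, hΦp, add_zero, map_zsmul, zsmul_eq_mul, Int.cast_natCast]
  have hΦX' : ∀ i, Φ (X' i) = ∑ z : Eˣ, (z : E) * ZMod.castHom (dvd_refl p) E (ν i ((z⁻¹ : Eˣ) : E)) := by
    intro i
    rw [hX', map_sum]
    apply Finset.sum_congr rfl
    intro z _
    rw [hΦ, hν]
    congr 1
  have hrel : e₀ * Φ (X' 0) + e₁ * Φ (X' 1) = 0 := by
    have h1 : Φ (c 0 • X 0 + c 1 • X 1) = 0 := by rw [hXX, map_zero]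
    rw [map_add, hΦs, hΦs, hΦX, hΦX, ← he₀, ← he₁] at h1
    have h2 : (Fintype.card G : E) ≠ 0 := by
      intro h
      exact hG ((CharP.cast_eq_zero_iff E p _).mp h)
    apply mul_left_cancel₀ h2
    rw [mul_zero]
    linear_combination h1
  -- the twisted functional
  have htw : ∀ (i : Fin 2) (e : E), e * ∑ z : Eˣ, (z : E) *
      ZMod.castHom (dvd_refl p) E (ν i ((z⁻¹ : Eˣ) : E)) =
      ∑ z : Eˣ, (z : E) * ZMod.castHom (dvd_refl p) E (ν i (e * ((z⁻¹ : Eˣ) : E))) := by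
    intro i e
    by_cases he : e = 0
    · rw [he, zero_mul]
      symm
      apply Finset.sum_eq_zero
      intro z _
      rw [zero_mul, map_zero, map_zero, mul_zero]
    · rw [Finset.mul_sum]
      apply Fintype.sum_equiv (Equiv.mulLeft (Units.mk0 e he))
      intro z
      rw [Equiv.coe_mulLeft, ← mul_assoc]
      congr 2
      rw [mul_inv_rev, Units.val_mul, mul_comm ((z⁻¹ : Eˣ) : E), ← mul_assoc]
      simp [he]
  have hfun := functional_zero ((ν 0).comp (AddMonoidHom.mulLeft e₀) + (ν 1).comp (AddMonoidHom.mulLeft e₁))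
    (by
      rw [hΦX', hΦX', htw, htw, ← Finset.sum_add_distrib] at hrel
      rw [← hrel]
      apply Finset.sum_congr rfl
      intro z _
      rw [AddMonoidHom.add_apply, map_add, mul_add]
      rfl) γ₀
  apply hlne
  rw [map_add, ← hν, ← hν]
  exact hfun

end Run7.h99.GK
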